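import Pool.Agent.Helper28.EP.ADefs

/-!
# Block A8 (words of lattice paths)
-/

set_option autoImplicit false

namespace Pool.Agent.EP

theorem A8_forall_prefix {P : List ℕ → Prop} {w : List ℕ} :
    (∀ u, u <+: w → P u) ↔ ∀ i, i ≤ w.length → P (w.take i) := by
  constructor
  · intro h i _
    exact h _ (List.take_prefix _ _)
  · intro h u hu
    have h1 := List.prefix_iff_eq_take.1 hu
    rw [h1]
    exact h _ hu.length_le

theorem A8_tauL_length (l : List ℕ) : (tauL l).length = l.length := by
  simp [tauL]

theorem A8_tauL_sum (l : List ℕ) : (tauL l).sum = l.sum + l.length := by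
  unfold tauL
  induction l with
  | nil => rfl
  | cons a l ih => simp only [List.map_cons, List.sum_cons, List.length_cons, ih]; ring

theorem A8_tauL_take (l : List ℕ) (i : ℕ) : (tauL l).take i = tauL (l.take i) := by
  unfold tauL
  rw [List.map_take]

theorem A8_phiL_cons (k : ℕ) (l : List ℕ) :
    phiL (k :: l) = List.replicate k 1 ++ ([0] ++ phiL l) := by
  simp [phiL]

theorem A8_phiL_length (l : List ℕ) : (phiL l).length = l.length + l.sum := by
  induction l with
  | nil => rfl
  | cons a l ih =>
    rw [A8_phiL_cons, List.length_append, List.length_append, ih, List.length_replicate,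
      List.sum_cons]
    simp only [List.length_cons, List.length_nil]
    ring

theorem A8_phiL_sum (l : List ℕ) : (phiL l).sum = l.sum := by
  induction l with
  | nil => rfl
  | cons a l ih =>
    rw [A8_phiL_cons, List.sum_append, List.sum_append, ih, List.sum_replicate, List.sum_cons]
    simp

theorem A8_phiL_take (w : List ℕ) : ∀ i, (w = [] ∨ i < (phiL w).length) →
    (phiL w).take i = phiL w ∨
      ∃ v k j, (v ++ [k]) <+: w ∧ j ≤ k ∧ (phiL w).take i = phiL v ++ List.replicate j 1 := by
  induction w with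
  | nil => intro i _; left; simp [phiL]
  | cons a w ih =>
    intro i hi
    rw [A8_phiL_cons]
    rcases Nat.lt_or_ge a i with h | h
    · -- i ≥ a + 1
      obtain ⟨i', rfl⟩ : ∃ i', i = a + (i' + 1) := ⟨i - a - 1, by omega⟩
      have e1 : (List.replicate a 1 ++ ([0] ++ phiL w)).take (a + (i' + 1)) =
          List.replicate a 1 ++ ([0] ++ (phiL w).take i') := by
        rw [List.take_append, List.length_replicate, Nat.add_sub_cancel_left]
        rw [List.take_of_length_le (by simp)]
        rfl
      rw [e1]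
      have hi' : w = [] ∨ i' < (phiL w).length := by
        rcases hi with hi | hi
        · simp at hi
        · right
          rw [A8_phiL_cons, List.length_append, List.length_append, List.length_replicate,
            List.length_singleton] at hi
          omega
      rcases ih i' hi' with h1 | ⟨v, k, j, h1, h2, h3⟩
      · left
        rw [h1]
      · right
        refine ⟨a :: v, k, j, ?_, h2, ?_⟩
        · rw [List.cons_append, List.cons_prefix_cons]
          exact ⟨rfl, h1⟩
        · rw [h3, A8_phiL_cons]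
          simp
    · right
      refine ⟨[], a, i, ?_, h, ?_⟩
      · exact ⟨w, rfl⟩
      · rw [List.take_append_of_le_length (by simpa using h), List.take_replicate,
          Nat.min_eq_left h]
        simp [phiL]

theorem A8_tau_isB {m n : ℕ} {w : List ℕ} (hw : IsB m n w) : IsB m (n + m) (tauL w) := by
  obtain ⟨h1, h2, h3⟩ := hw
  refine ⟨by rw [A8_tauL_length, h1], by rw [A8_tauL_sum, h1, h2], ?_⟩
  rw [A8_forall_prefix] at h3 ⊢
  intro i hi
  rw [A8_tauL_length] at hi
  obtain ⟨h4, h5⟩ := h3 i hi
  rw [A8_tauL_take, A8_tauL_length, A8_tauL_sum]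
  constructor <;> nlinarith

theorem A8_tau_isBm {m n : ℕ} {w : List ℕ} (hw : IsBm m n w) : IsBm m (n + m) (tauL w) := by
  obtain ⟨h1, h2, h3⟩ := hw
  refine ⟨by rw [A8_tauL_length, h1], by rw [A8_tauL_sum, h1, h2], ?_⟩
  rw [A8_forall_prefix] at h3 ⊢
  intro i hi
  rw [A8_tauL_length] at hi
  rw [A8_tauL_take, A8_tauL_length, A8_tauL_sum]
  intro h4 h5
  obtain ⟨h6, h7⟩ := h3 i hi h4 h5
  constructor <;> nlinarith

theorem A8_phi_isB {m n : ℕ} (hm : 1 ≤ m) {w : List ℕ} (hw : IsB m n w) :
    IsB (m + n) n (phiL w) := by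
  obtain ⟨h1, h2, h3⟩ := hw
  refine ⟨by rw [A8_phiL_length, h1, h2], by rw [A8_phiL_sum, h2], ?_⟩
  have hfull : (phiL w).length * n ≤ (m + n) * (phiL w).sum ∧
      (m + n) * (phiL w).sum < (phiL w).length * n + (m + n) := by
    rw [A8_phiL_length, A8_phiL_sum, h1, h2]
    constructor <;> omega
  rw [A8_forall_prefix]
  intro i hi
  rcases Nat.lt_or_ge i (phiL w).length with h | h
  · rcases A8_phiL_take w i (Or.inr h) with h4 | ⟨v, k, j, h4, h5, h6⟩
    · rw [h4]; exact hfull
    · rw [h6, List.length_append, List.sum_append, A8_phiL_length, A8_phiL_sum,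
        List.length_replicate, List.sum_replicate, smul_eq_mul, mul_one]
      have h7 := (h3 v ((List.prefix_append v [k]).trans h4)).1
      have h8 := (h3 _ h4).2
      rw [List.length_append, List.sum_append, List.length_singleton, List.sum_singleton] at h8
      have h9 : m * (v.sum + j) ≤ m * (v.sum + k) := Nat.mul_le_mul_left _ (by omega)
      constructor <;> nlinarith
  · rw [List.take_of_length_le h]
    exact hfull

theorem A8_phi_isBm {m n : ℕ} (hm : 1 ≤ m) {w : List ℕ} (hw : IsBm m n w) :
    IsBm (m + n) n (phiL w) := by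
  obtain ⟨h1, h2, h3⟩ := hw
  refine ⟨by rw [A8_phiL_length, h1, h2], by rw [A8_phiL_sum, h2], ?_⟩
  have hlen : (phiL w).length = m + n := by rw [A8_phiL_length, h1, h2]
  rw [A8_forall_prefix]
  intro i hi
  rcases Nat.lt_or_ge i (phiL w).length with h | h
  · rcases A8_phiL_take w i (Or.inr h) with h4 | ⟨v, k, j, h4, h5, h6⟩
    · rw [h4]
      intro h7 h8
      omega
    · rw [h6, List.length_append, List.sum_append, A8_phiL_length, A8_phiL_sum,
        List.length_replicate, List.sum_replicate, smul_eq_mul, mul_one]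
      intro h7 h8
      have hvl : v.length + 1 ≤ m := by
        have := h4.length_le
        rw [List.length_append, List.length_singleton, h1] at this
        exact this
      have h9 : m * (v.sum + j) ≤ m * (v.sum + k) := Nat.mul_le_mul_left _ (by omega)
      constructor
      · rcases Nat.eq_zero_or_pos v.length with h0 | h0
        · rw [List.length_eq_zero_iff] at h0
          subst h0
          simp only [List.length_nil, List.sum_nil] at *
          nlinarith
        · have h10 := (h3 v ((List.prefix_append v [k]).trans h4) h0 (by omega)).1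
          nlinarith
      · have h11 : m * (v.sum + k) ≤ (v.length + 1) * n + m := by
          rcases Nat.lt_or_ge (v.length + 1) m with h0 | h0
          · have h10 := (h3 _ h4 (by simp) (by simpa using h0)).2
            rw [List.length_append, List.sum_append, List.length_singleton,
              List.sum_singleton] at h10
            exact h10
          · have h10 : v ++ [k] = w := h4.eq_of_length (by simp; omega)
            have h12 : v.sum + k = n := by
              rw [← h2, ← h10]
              simp
            rw [h12]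
            have : m = v.length + 1 := by omega
            rw [← this]
            omega
        nlinarith
  · rw [List.take_of_length_le h]
    intro h7 h8
    omega

theorem frame_isB {A C : ℕ × ℕ} {g : List ℕ → List ℕ} (hg : Frame A C g) (m n : ℕ) (hm : 1 ≤ m)
    (w : List ℕ) (hw : IsB m n w) : IsB (m * C.1 + n * A.1) (m * C.2 + n * A.2) (g w) := by
  induction hg generalizing m n w with
  | base => simpa using hw
  | @tau A C g hg ih =>
    have := ih m (n + m) hm (tauL w) (A8_tau_isB hw)
    have e1 : m * (A.1 + C.1) + n * A.1 = m * C.1 + (n + m) * A.1 := by ring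
    have e2 : m * (A.2 + C.2) + n * A.2 = m * C.2 + (n + m) * A.2 := by ring
    show IsB (m * (A.1 + C.1) + n * A.1) (m * (A.2 + C.2) + n * A.2) (g (tauL w))
    rw [e1, e2]
    exact this
  | @phi A C g hg ih =>
    have := ih (m + n) n (by omega) (phiL w) (A8_phi_isB hm hw)
    have e1 : m * C.1 + n * (A.1 + C.1) = (m + n) * C.1 + n * A.1 := by ring
    have e2 : m * C.2 + n * (A.2 + C.2) = (m + n) * C.2 + n * A.2 := by ring
    show IsB (m * C.1 + n * (A.1 + C.1)) (m * C.2 + n * (A.2 + C.2)) (g (phiL w))
    rw [e1, e2]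
    exact this

theorem frame_isBm {A C : ℕ × ℕ} {g : List ℕ → List ℕ} (hg : Frame A C g) (m n : ℕ) (hm : 1 ≤ m)
    (w : List ℕ) (hw : IsBm m n w) : IsBm (m * C.1 + n * A.1) (m * C.2 + n * A.2) (g w) := by
  induction hg generalizing m n w with
  | base => simpa using hw
  | @tau A C g hg ih =>
    have := ih m (n + m) hm (tauL w) (A8_tau_isBm hw)
    have e1 : m * (A.1 + C.1) + n * A.1 = m * C.1 + (n + m) * A.1 := by ring
    have e2 : m * (A.2 + C.2) + n * A.2 = m * C.2 + (n + m) * A.2 := by ring
    show IsBm (m * (A.1 + C.1) + n * A.1) (m * (A.2 + C.2) + n * A.2) (g (tauL w))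
    rw [e1, e2]
    exact this
  | @phi A C g hg ih =>
    have := ih (m + n) n (by omega) (phiL w) (A8_phi_isBm hm hw)
    have e1 : m * C.1 + n * (A.1 + C.1) = (m + n) * C.1 + n * A.1 := by ring
    have e2 : m * C.2 + n * (A.2 + C.2) = (m + n) * C.2 + n * A.2 := by ring
    show IsBm (m * C.1 + n * (A.1 + C.1)) (m * C.2 + n * (A.2 + C.2)) (g (phiL w))
    rw [e1, e2]
    exact this

theorem isB_rep (d : ℕ) (hd : 1 ≤ d) : IsB d d (List.replicate d 1) := by
  refine ⟨by simp, by simp, ?_⟩
  rw [A8_forall_prefix]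
  intro i hi
  rw [List.length_replicate] at hi
  rw [List.take_replicate, Nat.min_eq_left hi, List.length_replicate, List.sum_replicate,
    smul_eq_mul, mul_one]
  constructor <;> nlinarith

theorem isBm_one : IsBm 1 1 [1] := by
  refine ⟨rfl, rfl, ?_⟩
  intro u _ h1 h2
  omega

theorem isBm_rep (d : ℕ) (hd : 2 ≤ d) : IsBm d d (2 :: (List.replicate (d - 2) 1 ++ [0])) := by
  refine ⟨by simp; omega, by simp; omega, ?_⟩
  rw [A8_forall_prefix]
  intro i hi h1 h2
  rw [List.length_take, Nat.min_eq_left hi] at h1 h2 ⊢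
  obtain ⟨i, rfl⟩ : ∃ k, i = k + 1 := ⟨i - 1, by omega⟩
  rw [List.take_succ_cons, List.take_append_of_le_length (by rw [List.length_replicate]; omega),
    List.take_replicate, Nat.min_eq_left (by omega), List.sum_cons, List.sum_replicate,
    smul_eq_mul, mul_one]
  constructor <;> nlinarith

theorem A8_eq_of_sums {w w' : List ℕ} (hl : w.length = w'.length)
    (h : ∀ i, i ≤ w.length → (w.take i).sum = (w'.take i).sum) : w = w' := by
  apply List.ext_getElem hl
  intro i h1 h2
  have h3 := h (i + 1) h1
  have h4 := h i (by omega)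
  rw [List.sum_take_succ _ _ h1, List.sum_take_succ _ _ h2, h4] at h3
  omega

theorem isB_unique (m n : ℕ) (w w' : List ℕ) (hw : IsB m n w) (hw' : IsB m n w') : w = w' := by
  obtain ⟨h1, h2, h3⟩ := hw
  obtain ⟨h1', h2', h3'⟩ := hw'
  rw [A8_forall_prefix] at h3 h3'
  apply A8_eq_of_sums (by omega)
  intro i hi
  obtain ⟨h4, h5⟩ := h3 i hi
  obtain ⟨h4', h5'⟩ := h3' i (by omega)
  rw [List.length_take, Nat.min_eq_left hi] at h4 h5
  rw [List.length_take, Nat.min_eq_left (by omega)] at h4' h5'
  have h6 : m * (w.take i).sum < m * ((w'.take i).sum + 1) := by rw [Nat.mul_add]; omega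
  have h7 : m * (w'.take i).sum < m * ((w.take i).sum + 1) := by rw [Nat.mul_add]; omega
  have h8 := Nat.lt_of_mul_lt_mul_left h6
  have h9 := Nat.lt_of_mul_lt_mul_left h7
  omega

theorem isBm_unique (m n : ℕ) (w w' : List ℕ) (hw : IsBm m n w) (hw' : IsBm m n w') :
    w = w' := by
  obtain ⟨h1, h2, h3⟩ := hw
  obtain ⟨h1', h2', h3'⟩ := hw'
  rw [A8_forall_prefix] at h3 h3'
  apply A8_eq_of_sums (by omega)
  intro i hi
  rcases Nat.eq_zero_or_pos i with h0 | h0
  · subst h0; simp
  rcases Nat.lt_or_ge i m with h10 | h10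
  · have h45 := h3 i hi
    have h45' := h3' i (by omega)
    rw [List.length_take, Nat.min_eq_left hi] at h45
    rw [List.length_take, Nat.min_eq_left (by omega)] at h45'
    obtain ⟨h4, h5⟩ := h45 h0 h10
    obtain ⟨h4', h5'⟩ := h45' h0 h10
    have h6 : m * (w.take i).sum < m * ((w'.take i).sum + 1) := by rw [Nat.mul_add]; omega
    have h7 : m * (w'.take i).sum < m * ((w.take i).sum + 1) := by rw [Nat.mul_add]; omega
    have h8 := Nat.lt_of_mul_lt_mul_left h6
    have h9 := Nat.lt_of_mul_lt_mul_left h7
    omega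
  · rw [List.take_of_length_le (by omega), List.take_of_length_le (by omega), h2, h2']

theorem A8_path_word (m : ℕ) (B : ℕ → ℤ) (h0 : B 0 = 0) (hmono : ∀ i : ℕ, i < m → B i ≤ B (i + 1)) :
    ∃ w : List ℕ, w.length = m ∧ w.map (fun k : ℕ => (k : ℤ)) = pathWord B m ∧
      ∀ i, i ≤ m → ((w.take i).sum : ℤ) = B i := by
  refine ⟨(List.range m).map fun i => (B (i + 1) - B i).toNat, by simp, ?_, ?_⟩
  · unfold pathWord
    rw [List.map_map]
    apply List.map_congr_left
    intro i hi
    rw [List.mem_range] at hi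
    have := hmono i hi
    simp only [Function.comp_apply]
    omega
  · intro i hi
    rw [← List.map_take, List.take_range, Nat.min_eq_left hi]
    induction i with
    | zero => simp [h0]
    | succ i ih =>
      rw [List.range_succ, List.map_append, List.sum_append, List.map_singleton,
        List.sum_singleton]
      have h1 := ih (by omega)
      have h2 := hmono i (by omega)
      rw [Nat.cast_add, h1]
      omega

theorem isB_path (m n : ℕ) (hm : 1 ≤ m) (B : ℕ → ℤ)
    (hB : ∀ i : ℕ, i ≤ m → (i : ℤ) * n ≤ m * B i ∧ (m : ℤ) * B i < i * n + m) :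
    ∃ w, IsB m n w ∧ w.map (fun k : ℕ => (k : ℤ)) = pathWord B m := by
  have hm' : (0 : ℤ) < m := by exact_mod_cast hm
  have hB0 : B 0 = 0 := by
    obtain ⟨h1, h2⟩ := hB 0 (by omega)
    rw [Nat.cast_zero, zero_mul] at h1 h2
    nlinarith
  have hBm : B m = n := by
    obtain ⟨h1, h2⟩ := hB m le_rfl
    nlinarith
  have hmono : ∀ i : ℕ, i < m → B i ≤ B (i + 1) := by
    intro i hi
    obtain ⟨h1, h2⟩ := hB i (by omega)
    obtain ⟨h3, h4⟩ := hB (i + 1) (by omega)
    push_cast at h3
    have hn : (0 : ℤ) ≤ n := by positivity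
    have h5 : (m : ℤ) * B i < m * (B (i + 1) + 1) := by nlinarith
    have h6 := lt_of_mul_lt_mul_left h5 hm'.le
    omega
  obtain ⟨w, h1, h2, h3⟩ := A8_path_word m B hB0 hmono
  refine ⟨w, ⟨h1, ?_, ?_⟩, h2⟩
  · have := h3 m le_rfl
    rw [List.take_of_length_le (by omega), hBm] at this
    exact_mod_cast this
  · rw [A8_forall_prefix]
    intro i hi
    rw [h1] at hi
    rw [List.length_take, Nat.min_eq_left (by omega)]
    obtain ⟨h4, h5⟩ := hB i hi
    rw [← h3 i hi] at h4 h5
    exact ⟨by exact_mod_cast h4, by exact_mod_cast h5⟩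

theorem isBm_path (m n : ℕ) (hm : 1 ≤ m) (B : ℕ → ℤ) (hB0 : B 0 = 0) (hBm : B m = n)
    (hB : ∀ i : ℕ, 0 < i → i < m → (i : ℤ) * n < m * B i ∧ (m : ℤ) * B i ≤ i * n + m)
    (hmono : ∀ i : ℕ, i < m → B i ≤ B (i + 1)) :
    ∃ w, IsBm m n w ∧ w.map (fun k : ℕ => (k : ℤ)) = pathWord B m := by
  obtain ⟨w, h1, h2, h3⟩ := A8_path_word m B hB0 hmono
  refine ⟨w, ⟨h1, ?_, ?_⟩, h2⟩
  · have := h3 m le_rfl
    rw [List.take_of_length_le (by omega), hBm] at this
    exact_mod_cast this
  · rw [A8_forall_prefix]
    intro i hi h6 h7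
    rw [h1] at hi
    rw [List.length_take, Nat.min_eq_left (by omega)] at h6 h7 ⊢
    obtain ⟨h4, h5⟩ := hB i h6 h7
    rw [← h3 i hi] at h4 h5
    exact ⟨by exact_mod_cast h4, by exact_mod_cast h5⟩

end Pool.Agent.EP
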