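import Pool.Agent.Helper32.EP.Defs

/-!
# The signed operators `Dsg k = (-1)^k D_k` and the elements `F w` (interface of parts A and B)
-/

set_option autoImplicit false

namespace Pool.Agent.EP

open MvPolynomial

variable {K : Type*} [Field K]

/-- `Dsg k = (-1)^k D_k`. -/
noncomputable def Dsg (q t : K) (k : ℤ) : Module.End K (Lam K) :=
  ((-1 : K) ^ k.natAbs) • Dop q t k

/-- `F w` is the value at `1` of the coefficient of `z^w` in
`Dsg(z_1) ⋯ Dsg(z_l) / ∏ (1 - q t z_{i+1} / z_i)`. -/
noncomputable def F (q t : K) : List ℤ → Lam K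
  | [] => 1
  | [k] => Dsg q t k 1
  | k :: k' :: v => ∑ i ∈ Finset.range ((k' + v.sum).toNat + 1),
      (q * t) ^ i • Dsg q t (k + i) (F q t ((k' - i) :: v))
  termination_by w => w.length

/-- The runs of the highest path weakly below the diagonal from `(0,n)` to `(m,0)`:
`b_j = ⌊(m-j+1)n/m⌋ - ⌊(m-j)n/m⌋`, `j = 1, ..., m`. -/
def bw (m n : ℕ) : List ℤ :=
  (List.range m).map fun j => (((m - j) * n / m : ℕ) : ℤ) - (((m - (j + 1)) * n / m : ℕ) : ℤ)

/-- Heights of the highest path from `(0,n)` to `(m,0)` strictly below the diagonal in the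
columns `1, ..., m-1`. -/
def ys (m n : ℕ) (j : ℕ) : ℤ :=
  if j = 0 then n else if m ≤ j then 0 else (((m - j) * n + m - 1) / m : ℕ) - 1

/-- The runs of the highest path with heights `ys`. -/
def bs (m n : ℕ) : List ℤ := (List.range m).map fun j => ys m n j - ys m n (j + 1)

end Pool.Agent.EP
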