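import Pool.Agent.Helper32.EP.Lines
import Pool.Agent.Helper32.EP.Words

/-!
# Final assembly for MP_36e183_co
-/

set_option autoImplicit false

namespace Pool.Agent.EP

open MvPolynomial

section

variable {K : Type*} [Field K]

theorem Dsg_one (q t : K) (k : ℤ) : Dsg q t k 1 = e K k := by
  unfold Dsg Dop
  rw [LinearMap.smul_apply, LinearMap.comp_apply, AlgHom.toLinearMap_apply, map_one]
  rw [show (1 : Polynomial (Lam K)) = Polynomial.monomial 0 1 from rfl, Polynomial.lsum_apply,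
    Polynomial.sum_monomial_index _ _ (by simp)]
  rw [LinearMap.mulLeft_apply, Nat.cast_zero, add_zero, mul_one]
  rw [Algebra.smul_def, ← mul_assoc]
  have h1 : (algebraMap K (Lam K)) ((-1) ^ k.natAbs) * (-1) ^ k.natAbs = 1 := by
    rw [map_pow, map_neg, map_one, ← mul_pow]
    simp
  rw [h1, one_mul]

theorem F_single (q t : K) (k : ℤ) : F q t [k] = e K k := by
  rw [F, Dsg_one]

theorem bw_one (n : ℕ) : bw 1 n = [(n : ℤ)] := by
  simp [bw]

theorem bs_one (n : ℕ) : bs 1 n = [(n : ℤ)] := by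
  simp [bs, ys]

theorem alpha_one (n : ℕ) : alpha 1 n = 0 := by
  unfold alpha
  apply Finset.sum_eq_zero
  intro k hk
  rw [Finset.mem_range] at hk
  rw [mul_one, Nat.div_eq_of_lt hk, Nat.zero_sub]

theorem emn_zero (q t : K) (n : ℕ) : emn q t 0 n = e K n := by
  unfold emn
  rw [if_pos rfl]

end

theorem main_of
    (hA_ex : ∀ a b : ℕ, 1 ≤ a → 1 ≤ b → Nat.Coprime a b →
      ∃! Θ : Lam KQ →ₐ[KQ] Module.End KQ (Lam KQ), IsTheta qv (1 + rv) a b Θ)
    (hA_e : ∀ m n : ℕ, 1 ≤ m → 1 ≤ n → emn qv (1 + rv) m n = F qv (1 + rv) (bw m n))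
    (hA_h : ∀ m n : ℕ, 1 ≤ m → 1 ≤ n →
      C ((-(qv * (1 + rv))) ^ (1 - (Nat.gcd m n : ℤ))) * hmn qv (1 + rv) m n =
        F qv (1 + rv) (bs m n))
    (hI_e : ∀ m n : ℕ, 2 ≤ m → 1 ≤ n →
      EPos qv rv (F qv (1 + rv) (bw m n) - C (qv ^ alpha m n) * F qv (1 + rv) (bw (m - 1) n)))
    (hI_h : ∀ m n : ℕ, 2 ≤ m → 1 ≤ n →
      EPos qv rv (F qv (1 + rv) (bs m n) -
        C (qv ^ (alpha m n + 1 - Nat.gcd m n)) * F qv (1 + rv) (bw (m - 1) n)))
    (hI_g : ∀ m n : ℕ, 2 ≤ m → 1 ≤ n → Nat.gcd m n ≤ alpha m n + 1) :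
    MainStatement := by
  refine ⟨hA_ex, ?_⟩
  intro m n hm hn
  rcases Nat.eq_or_lt_of_le hm with h1 | h1
  · subst h1
    have hz : emn qv (1 + rv) 0 n = F qv (1 + rv) [(n : ℤ)] := by
      rw [emn_zero, F_single]
    constructor
    · rw [hA_e 1 n le_rfl hn, bw_one, alpha_one, pow_zero, C_1, one_mul, Nat.sub_self, hz, sub_self]
      exact EPos.zero _ _
    · rw [hA_h 1 n le_rfl hn, bs_one, alpha_one, Nat.gcd_one_left, Nat.sub_self, hz]
      have : (((0 : ℕ) : ℤ) - ((1 : ℕ) : ℤ) + 1) = 0 := by norm_num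
      rw [this, zpow_zero, C_1, one_mul, sub_self]
      exact EPos.zero _ _
  · constructor
    · rw [hA_e m n hm hn, hA_e (m - 1) n (by omega) hn]
      exact hI_e m n (by omega) hn
    · rw [hA_h m n hm hn, hA_e (m - 1) n (by omega) hn]
      have h2 := hI_h m n (by omega) hn
      have h3 := hI_g m n (by omega) hn
      have h4 : (alpha m n : ℤ) - (Nat.gcd m n : ℤ) + 1 = ((alpha m n + 1 - Nat.gcd m n : ℕ) : ℤ) := by
        omega
      rw [h4, zpow_natCast]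
      exact h2

end Pool.Agent.EP
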