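import Pool.Agent.Helper28.EP.ADefs
import Pool.Agent.Helper32.EP.Words

/-!
# The word operators applied to `1` are the elements `F w`
-/

set_option autoImplicit false

namespace Pool.Agent.EP

open MvPolynomial

variable {K : Type*} [Field K]

theorem Dt_eq_Dsg (q t : K) (k : ℤ) : Dt q t k = Dsg q t k := by
  unfold Dt Dsg
  congr 1
  rcases Int.even_or_odd k with hk | hk
  · rw [hk.neg_one_zpow, (Int.natAbs_even.2 hk).neg_one_pow]
  · rw [hk.neg_one_zpow, (Int.natAbs_odd.2 hk).neg_one_pow]

theorem one_mem_Fil' : (1 : Lam K) ∈ Fil K 0 := by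
  apply Submodule.subset_span
  refine ⟨0, ?_, rfl⟩
  simp [wt]

theorem Fw_eq_F {q t : K} (hW : WFacts (Fil K) (Dt q t) (q * t)) (w : List ℤ) :
    Fw q t w = F q t w := by
  induction hl : w.length using Nat.strong_induction_on generalizing w with
  | _ l ih =>
    match w, hl with
    | [], _ => rw [F]; rfl
    | [k], _ =>
      rw [F, ← Dt_eq_Dsg]
      rfl
    | k :: k' :: v, hl =>
      rw [F]
      have key : ∀ N : ℕ, Fw q t (k :: k' :: v) =
          ∑ i ∈ Finset.range N, (q * t) ^ i • Dt q t (k + i) (Fw q t ((k' - i) :: v)) +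
            (q * t) ^ N • Fw q t ((k + N) :: (k' - N) :: v) := by
        intro N
        induction N with
        | zero => simp
        | succ N ihN =>
          rw [ihN, Finset.sum_range_succ, add_assoc]
          congr 1
          have h1 := hW.recu (k + N) (k' - N) v
          have h2 : Fw q t ((k + N) :: (k' - N) :: v) =
              Dt q t (k + N) (Fw q t ((k' - N) :: v)) +
                (q * t) • Fw q t ((k + N + 1) :: (k' - N - 1) :: v) := by
            unfold Fw Dw
            rw [h1]
            rfl
          rw [h2, smul_add, smul_smul, ← pow_succ]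
          push_cast
          rw [add_assoc k, sub_sub]
      rw [key ((k' + v.sum).toNat + 1)]
      have hvan : Fw q t ((k + ((k' + v.sum).toNat + 1 : ℕ)) ::
          (k' - ((k' + v.sum).toNat + 1 : ℕ)) :: v) = 0 := by
        have := hW.van [k + ((k' + v.sum).toNat + 1 : ℕ)]
          ((k' - ((k' + v.sum).toNat + 1 : ℕ)) :: v) (by simp) 0 1 one_mem_Fil' (by
            rw [List.sum_cons]
            omega)
        exact this
      rw [hvan, smul_zero, add_zero]
      apply Finset.sum_congr rfl
      intro i _
      rw [Dt_eq_Dsg, ih (v.length + 1) (by rw [← hl]; simp) ((k' - i) :: v) rfl]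

end Pool.Agent.EP
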