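import Mathlib

/-!
# Definitions for MP_36e183_co (e-positive inclusions for rectangular operators at t = 1 + r)

`Λ = K[e_1, e_2, ...]` is the ring of symmetric functions over a field `K` (fundamental theorem of
symmetric functions), the plethystic substitution `g ↦ g[x + M/z]` is the algebra homomorphism
`e_n ↦ ∑_j e_{n-j} e_j[M] z^{-j}`, where `∑_j e_j[M] u^j = (1+u)(1+qtu) / ((1+qu)(1+tu))`
for `M = (1-q)(1-t) = 1 - q - t + qt`.
-/

set_option autoImplicit false

namespace Pool.Agent.EP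

open MvPolynomial

variable {K : Type*} [Field K]

/-- The ring of symmetric functions over `K`, as the polynomial ring in `e_1, e_2, ...`:
the variable `X n` is `e_{n+1}`. -/
abbrev Lam (K : Type*) [Field K] : Type _ := MvPolynomial ℕ K

/-- The elementary symmetric function `e_n` for an integer `n`
(`e_0 = 1` and `e_n = 0` for `n < 0`). -/
noncomputable def e (K : Type*) [Field K] : ℤ → Lam K
  | Int.ofNat 0 => 1
  | Int.ofNat (n + 1) => X n
  | Int.negSucc _ => 0

/-- The complete homogeneous symmetric function `h_n`, from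
`∑_{i=0}^{n} (-1)^i e_i h_{n-i} = 0` for `n ≥ 1`. -/
noncomputable def h (K : Type*) [Field K] : ℕ → Lam K
  | 0 => 1
  | n + 1 => ∑ i : Fin (n + 1), (-1) ^ (i : ℕ) * e K ((i : ℕ) + 1) * h K (n - (i : ℕ))
  termination_by n => n
  decreasing_by omega

/-- The hook Schur function `s_{(j|k)}` (one part `j+1` and `k` parts `1`), from
`s_{(j|0)} = h_{j+1}` and the Pieri rule `e_{k+1} h_{j+1} = s_{(j|k+1)} + s_{(j+1|k)}`. -/
noncomputable def hook (K : Type*) [Field K] : ℕ → ℕ → Lam K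
  | j, 0 => h K (j + 1)
  | j, k + 1 => e K ((k : ℤ) + 1) * h K (j + 1) - hook K (j + 1) k

/-- The symmetric function `q_d = ∑_{j+k=d-1} (-qt)^{-j} s_{(j|k)}`. -/
noncomputable def qSym (q t : K) (d : ℕ) : Lam K :=
  ∑ j ∈ Finset.range d, C ((-(q * t))⁻¹ ^ j) * hook K j (d - 1 - j)

/-- `e_j[M]` for `M = (1-q)(1-t)`: the coefficient of `u^j` in
`(1+u)(1+qtu) / ((1+qu)(1+tu))`. -/
noncomputable def eM (q t : K) (j : ℕ) : K :=
  PowerSeries.coeff j
    ((1 + PowerSeries.X) * (1 + PowerSeries.C (q * t) * PowerSeries.X) *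
      (1 + PowerSeries.C q * PowerSeries.X)⁻¹ * (1 + PowerSeries.C t * PowerSeries.X)⁻¹)

/-- The plethystic substitution `g ↦ g[x + M/z]` as an algebra homomorphism
`Λ → Λ[y]`, `y = 1/z`: `e_n ↦ ∑_{j=0}^{n} e_j[M] e_{n-j} y^j`. -/
noncomputable def pleth (q t : K) : Lam K →ₐ[K] Polynomial (Lam K) :=
  aeval (fun n : ℕ =>
    ∑ j ∈ Finset.range (n + 2), Polynomial.monomial j (C (eM q t j) * e K ((n : ℤ) + 1 - j)))

/-- The operator `D_k` (`k ∈ ℤ`): `D_k(g)` is the coefficient of `z^k` in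
`g[x + M/z] ∑_{n≥0} e_n (-z)^n`. -/
noncomputable def Dop (q t : K) (k : ℤ) : Module.End K (Lam K) :=
  (Polynomial.lsum fun j : ℕ =>
    LinearMap.mulLeft K ((-1) ^ (k + j).natAbs * e K (k + j))) ∘ₗ (pleth q t).toLinearMap

/-- The first coordinate `k` of the split `(a,b) = (k,l) + (a-k,b-l)` with `a l - b k = 1`
(`a, b` coprime): the least `k ≥ 0` with `a ∣ b k + 1`. -/
noncomputable def splitK (a b : ℕ) : ℕ := sInf {k : ℕ | a ∣ b * k + 1}

/-- The second coordinate `l = (b k + 1) / a` of the split. -/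
noncomputable def splitL (a b : ℕ) : ℕ := (b * splitK a b + 1) / a

theorem split_exists (a b : ℕ) (ha : 1 ≤ a) (hab : Nat.Coprime a b) :
    ∃ k, k < a ∧ a ∣ b * k + 1 := by
  rcases Nat.eq_or_lt_of_le ha with h1 | h1
  · exact ⟨0, by omega, by rw [← h1]; exact one_dvd _⟩
  · -- inverse of `b` mod `a`
    obtain ⟨y, hy⟩ := Nat.exists_mul_mod_eq_one_of_coprime hab.symm h1
    refine ⟨(y * (a - 1)) % a, Nat.mod_lt _ (by omega), ?_⟩
    have h2 : (b * ((y * (a - 1)) % a) + 1) % a = 0 := by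
      have h3 : (b * ((y * (a - 1)) % a)) % a = (b * y * (a - 1)) % a := by
        rw [Nat.mul_mod, Nat.mod_mod, ← Nat.mul_mod, mul_assoc]
      have h4 : (b * y * (a - 1)) % a = (a - 1) % a := by
        rw [Nat.mul_mod, hy.2, one_mul, Nat.mod_mod]
      rw [Nat.add_mod, h3, h4, ← Nat.add_mod, Nat.sub_add_cancel ha, Nat.mod_self]
    exact Nat.dvd_of_mod_eq_zero h2

theorem split_spec (a b : ℕ) (ha : 1 ≤ a) (hab : Nat.Coprime a b) :
    splitK a b < a ∧ a * splitL a b = b * splitK a b + 1 := by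
  obtain ⟨k, hk, hd⟩ := split_exists a b ha hab
  have hne : {k : ℕ | a ∣ b * k + 1}.Nonempty := ⟨k, hd⟩
  have hmem : a ∣ b * splitK a b + 1 := Nat.sInf_mem hne
  have hle : splitK a b ≤ k := Nat.sInf_le hd
  exact ⟨by omega, Nat.mul_div_cancel' hmem⟩

theorem split_bounds (m n : ℕ) (hm : m ≠ 0) (hn : n ≠ 0) :
    let d := Nat.gcd m n
    let k := splitK (m / d) (n / d)
    let l := splitL (m / d) (n / d)
    k < m ∧ 1 ≤ l ∧ l ≤ n := by
  intro d k l
  have hd : 0 < d := Nat.gcd_pos_of_pos_left _ (Nat.pos_of_ne_zero hm)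
  have hcop : Nat.Coprime (m / d) (n / d) := Nat.coprime_div_gcd_div_gcd hd
  have ha : 1 ≤ m / d := Nat.div_pos (Nat.le_of_dvd (Nat.pos_of_ne_zero hm) (Nat.gcd_dvd_left _ _)) hd
  have hb : 1 ≤ n / d := Nat.div_pos (Nat.le_of_dvd (Nat.pos_of_ne_zero hn) (Nat.gcd_dvd_right _ _)) hd
  obtain ⟨h1, h2⟩ := split_spec (m / d) (n / d) ha hcop
  have h1' : k < m / d := h1
  have h2' : m / d * l = n / d * k + 1 := h2
  have hmd : m / d ≤ m := Nat.div_le_self _ _
  have hnd : n / d ≤ n := Nat.div_le_self _ _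
  refine ⟨by omega, ?_, ?_⟩
  · by_contra hl
    have : l = 0 := by omega
    rw [this] at h2'
    omega
  · have h3 : n / d * k + 1 ≤ n / d * (m / d - 1) + n / d := by
      have : n / d * k ≤ n / d * (m / d - 1) := Nat.mul_le_mul_left _ (by omega)
      omega
    have h4 : n / d * (m / d - 1) + n / d = m / d * (n / d) := by
      obtain ⟨c, hc⟩ : ∃ c, m / d = c + 1 := ⟨m / d - 1, by omega⟩
      rw [hc]; simp; ring
    have h5 : m / d * l ≤ m / d * (n / d) := by omega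
    have h6 : l ≤ n / d := Nat.le_of_mul_le_mul_left h5 (by omega)
    omega

/-- The operators `Q_{m,n}`: `Q_{0,n}` is multiplication by `q_n`, `Q_{1,0} = D_0`
(no other `Q_{m,0}` enters the recursion), and for `m, n ≥ 1`
`Q_{m,n} = (1/M) [Q_{k,l}, Q_{u,v}]` with `M = (1-q)(1-t)`, `(m,n) = (k,l) + (u,v)`, where
`(k,l)` is the vector of the split of the primitive vector `(a,b) = (m,n)/gcd(m,n)`,
that is `a l - b k = 1`, `0 ≤ k < a`. -/
noncomputable def Q (q t : K) (m n : ℕ) : Module.End K (Lam K) :=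
  if _hm : m = 0 then LinearMap.mulLeft K (qSym q t n)
  else if _hn : n = 0 then Dop q t 0
  else
    ((1 - q) * (1 - t))⁻¹ •
      (Q q t (splitK (m / Nat.gcd m n) (n / Nat.gcd m n))
            (splitL (m / Nat.gcd m n) (n / Nat.gcd m n)) *
          Q q t (m - splitK (m / Nat.gcd m n) (n / Nat.gcd m n))
            (n - splitL (m / Nat.gcd m n) (n / Nat.gcd m n)) -
        Q q t (m - splitK (m / Nat.gcd m n) (n / Nat.gcd m n))
            (n - splitL (m / Nat.gcd m n) (n / Nat.gcd m n)) *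
          Q q t (splitK (m / Nat.gcd m n) (n / Nat.gcd m n))
            (splitL (m / Nat.gcd m n) (n / Nat.gcd m n)))
  termination_by m + n
  decreasing_by
    all_goals
      have hb := split_bounds m n _hm _hn
      simp only at hb
      omega

/-- `Θ` is the algebra homomorphism `Θ_{a,b} : Λ → End(Λ)` with `Θ(q_d) = Q_{ad,bd}`. -/
def IsTheta (q t : K) (a b : ℕ) (Θ : Lam K →ₐ[K] Module.End K (Lam K)) : Prop :=
  ∀ d : ℕ, 1 ≤ d → Θ (qSym q t d) = Q q t (a * d) (b * d)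

open Classical in
/-- The homomorphism `Θ_{a,b}` (the value is multiplication if no such homomorphism exists; the
main theorem shows that for coprime `a, b ≥ 1` it exists and is unique). -/
noncomputable def Theta (q t : K) (a b : ℕ) : Lam K →ₐ[K] Module.End K (Lam K) :=
  if hΘ : ∃ Θ, IsTheta q t a b Θ then hΘ.choose else Algebra.lmul K (Lam K)

/-- `e_{m,n} = Θ_{a,b}(e_d)(1)`, `(m,n) = (ad,bd)`, `d = gcd(m,n)`; `e_{0,n} = e_n`. -/
noncomputable def emn (q t : K) (m n : ℕ) : Lam K :=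
  if m = 0 then e K n
  else Theta q t (m / Nat.gcd m n) (n / Nat.gcd m n) (e K (Nat.gcd m n)) 1

/-- `h_{m,n} = Θ_{a,b}(h_d)(1)`, `(m,n) = (ad,bd)`, `d = gcd(m,n)`, for `m ≥ 1`. -/
noncomputable def hmn (q t : K) (m n : ℕ) : Lam K :=
  Theta q t (m / Nat.gcd m n) (n / Nat.gcd m n) (h K (Nat.gcd m n)) 1

/-- `α(m,n) = ∑_{k=1}^{n} (⌊(k-1)m/n⌋ - ⌊(k-1)(m-1)/n⌋)`. -/
def alpha (m n : ℕ) : ℕ := ∑ k ∈ Finset.range n, (k * m / n - k * (m - 1) / n)

/-- `c` is the value at `(q, r)` of a polynomial in two variables with coefficients in `ℕ`. -/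
def NPos (q r c : K) : Prop :=
  ∃ P : MvPolynomial (Fin 2) ℕ, c = eval₂ (Nat.castRingHom K) ![q, r] P

/-- `0 ≤_e f`: all coefficients of `f` in the basis `e_μ` (the monomials in `e_1, e_2, ...`)
are polynomials in `q, r` with coefficients in `ℕ`. -/
def EPos (q r : K) (f : Lam K) : Prop := ∀ μ : ℕ →₀ ℕ, NPos q r (coeff μ f)

/-- The field `ℚ(q, r)`. -/
abbrev KQ : Type := FractionRing (MvPolynomial (Fin 2) ℚ)

/-- The indeterminate `q` in `ℚ(q, r)`. -/
noncomputable def qv : KQ := algebraMap (MvPolynomial (Fin 2) ℚ) KQ (X 0)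

/-- The indeterminate `r` in `ℚ(q, r)`. -/
noncomputable def rv : KQ := algebraMap (MvPolynomial (Fin 2) ℚ) KQ (X 1)

/-- The full statement of Q1, with `t = 1 + r`. -/
def MainStatement : Prop :=
  (∀ a b : ℕ, 1 ≤ a → 1 ≤ b → Nat.Coprime a b →
    ∃! Θ : Lam KQ →ₐ[KQ] Module.End KQ (Lam KQ), IsTheta qv (1 + rv) a b Θ) ∧
  (∀ m n : ℕ, 1 ≤ m → 1 ≤ n →
    EPos qv rv (emn qv (1 + rv) m n - C (qv ^ alpha m n) * emn qv (1 + rv) (m - 1) n) ∧
    EPos qv rv
      (C ((-(qv * (1 + rv))) ^ (1 - (Nat.gcd m n : ℤ))) * hmn qv (1 + rv) m n -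
        C (qv ^ ((alpha m n : ℤ) - (Nat.gcd m n : ℤ) + 1)) * emn qv (1 + rv) (m - 1) n))

end Pool.Agent.EP
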