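import Pool.Agent.Helper32.EP.Defs

/-!
# Facts on `q` and `t = 1 + r` in `ℚ(q, r)`
-/

set_option autoImplicit false

namespace Pool.Agent.EP

open MvPolynomial

/-- The evaluation of a polynomial at `q = a`, `r = b` detects that an element is nonzero. -/
theorem KQ_ne_zero {P : MvPolynomial (Fin 2) ℚ} (a b : ℚ) (h : eval ![a, b] P ≠ 0) :
    algebraMap (MvPolynomial (Fin 2) ℚ) KQ P ≠ 0 := by
  intro h0
  have : P = 0 := by
    apply IsFractionRing.injective (MvPolynomial (Fin 2) ℚ) KQ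
    rw [h0, map_zero]
  rw [this, map_zero] at h
  exact h rfl

theorem qv_ne_zero : qv ≠ 0 := KQ_ne_zero 1 1 (by simp)

theorem one_sub_qv_ne_zero : 1 - qv ≠ 0 := by
  have := KQ_ne_zero (P := 1 - X 0) 0 0 (by simp)
  rwa [map_sub, map_one] at this

theorem tv_ne_zero : 1 + rv ≠ 0 := by
  have := KQ_ne_zero (P := 1 + X 1) 0 0 (by simp)
  rwa [map_add, map_one] at this

theorem one_sub_tv_ne_zero : 1 - (1 + rv) ≠ 0 := by
  have := KQ_ne_zero (P := 1 - (1 + X 1)) 0 1 (by simp)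
  rwa [map_sub, map_add, map_one] at this

theorem M_ne_zero : (1 - qv) * (1 - (1 + rv)) ≠ 0 :=
  mul_ne_zero one_sub_qv_ne_zero one_sub_tv_ne_zero

theorem qt_ne_zero : qv * (1 + rv) ≠ 0 := mul_ne_zero qv_ne_zero tv_ne_zero

theorem qt_pow_ne_one {i : ℕ} (hi : i ≠ 0) : (qv * (1 + rv)) ^ i ≠ 1 := by
  intro h
  have h2 := KQ_ne_zero (P := (X 0 * (1 + X 1)) ^ i - 1) 0 0 (by simp [hi])
  apply h2
  rw [map_sub, map_pow, map_mul, map_add, map_one]
  exact sub_eq_zero.2 h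

instance : CharZero KQ := inferInstance

end Pool.Agent.EP
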