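import Pool.Agent.Helper32.EP.Defs
import Pool.Agent.Helper95.SH.LL

/-!
# `gcd(m,n) ≤ α(m,n) + 1`
-/

set_option autoImplicit false

namespace Pool.Agent.EP

theorem alpha_eq_SH (m n : ℕ) : alpha m n = Pool.Agent.Helper95.SH.alpha m n := rfl

theorem gcd_le_alpha {m n : ℕ} (hm : 2 ≤ m) (hn : 1 ≤ n) : Nat.gcd m n ≤ alpha m n + 1 := by
  obtain ⟨m, rfl⟩ : ∃ k, m = k + 2 := ⟨m - 2, by omega⟩
  rw [alpha_eq_SH]
  have h := Pool.Agent.Helper95.SH.count_H m n hn
  have h2 : 0 ≤ ∑ j ∈ Finset.range (m + 2), (Pool.Agent.Helper95.SH.yH (m + 2) n j -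
      Pool.Agent.Helper95.SH.yE (m + 1) n j) := by
    apply Finset.sum_nonneg
    intro j hj
    rw [Finset.mem_range] at hj
    unfold Pool.Agent.Helper95.SH.yH Pool.Agent.Helper95.SH.yE
    rcases Nat.eq_zero_or_pos j with h0 | h0
    · subst h0
      rw [if_pos rfl, Nat.sub_zero, Nat.mul_div_cancel_left _ (by omega)]
      simp
    · rw [if_neg (by omega), if_neg (by omega)]
      rcases Nat.lt_or_ge j (m + 1) with h1 | h1
      · -- the strict inequality of slopes
        have hlt : (m + 1 - j) * n / (m + 1) * (m + 2) < (m + 2 - j) * n := by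
          have e1 := Nat.div_mul_le_self ((m + 1 - j) * n) (m + 1)
          set c := (m + 1 - j) * n / (m + 1) with hc
          obtain ⟨i, hi⟩ : ∃ i, m + 1 = j + i := ⟨m + 1 - j, by omega⟩
          have e2 : m + 1 - j = i := by omega
          have e3 : m + 2 - j = i + 1 := by omega
          rw [e2] at e1
          rw [e3]
          have e4 : c * (m + 2) = c * (m + 1) + c := by ring
          have e5 : c < n := by
            by_contra hcon
            push Not at hcon
            have : n * (m + 1) ≤ c * (m + 1) := Nat.mul_le_mul_right _ hcon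
            have : n * (m + 1) ≤ i * n := by omega
            rw [Nat.mul_comm i n] at this
            have := Nat.le_of_mul_le_mul_left this hn
            omega
          rw [e4]
          have : (i + 1) * n = i * n + n := by ring
          omega
        have hle : (m + 1 - j) * n / (m + 1) + 1 ≤ ((m + 2 - j) * n + (m + 2) - 1) / (m + 2) := by
          rw [Nat.le_div_iff_mul_le (by omega)]
          have : ((m + 1 - j) * n / (m + 1) + 1) * (m + 2) =
            (m + 1 - j) * n / (m + 1) * (m + 2) + (m + 2) := by ring
          omega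
        omega
      · have e1 : m + 1 - j = 0 := by omega
        have e2 : m + 2 - j = 1 := by omega
        rw [e1, e2, Nat.zero_mul, Nat.zero_div]
        have : 1 ≤ (1 * n + (m + 2) - 1) / (m + 2) := by
          rw [Nat.le_div_iff_mul_le (by omega)]
          omega
        omega
  rw [h] at h2
  omega

end Pool.Agent.EP
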