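import Pool.Agent.Helper32.EP.A8
import Pool.Agent.Helper32.EP.Words

/-!
# The words `bw m n`, `bs m n` are the words of the highest paths
-/

set_option autoImplicit false

namespace Pool.Agent.EP

theorem bw_isB (m n : ℕ) (hm : 1 ≤ m) :
    ∃ w, IsB m n w ∧ w.map (fun k : ℕ => (k : ℤ)) = bw m n := by
  obtain ⟨w, h1, h2⟩ := isB_path m n hm (fun i => (n : ℤ) - (((m - i) * n / m : ℕ) : ℤ)) (by
    intro i hi
    obtain ⟨j, rfl⟩ : ∃ j, m = i + j := ⟨m - i, by omega⟩
    rw [Nat.add_sub_cancel_left]
    have h1 := Nat.div_mul_le_self (j * n) (i + j)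
    have h2 := Nat.lt_div_mul_add (a := j * n) (b := i + j) (by omega)
    set c := j * n / (i + j) with hc
    have h1' : (c : ℤ) * (i + j) ≤ j * n := by exact_mod_cast h1
    have h2' : (j : ℤ) * n < c * (i + j) + (i + j) := by exact_mod_cast h2
    push_cast
    constructor
    · nlinarith
    · nlinarith)
  refine ⟨w, h1, ?_⟩
  rw [h2]
  unfold pathWord bw
  apply List.map_congr_left
  intro j _
  simp only
  ring

theorem ys_mono (m n : ℕ) (hn : 1 ≤ n) (i : ℕ) (hi : i < m) : ys m n (i + 1) ≤ ys m n i := by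
  unfold ys
  rw [if_neg (by omega)]
  rcases Nat.lt_or_ge (i + 1) m with h1 | h1
  · rw [if_neg (by omega)]
    rcases Nat.eq_zero_or_pos i with h0 | h0
    · subst h0
      rw [if_pos rfl]
      have : ((m - (0 + 1)) * n + m - 1) / m ≤ n + 1 := by
        apply Nat.div_le_of_le_mul
        have : (m - (0 + 1)) * n ≤ m * n := Nat.mul_le_mul_right _ (by omega)
        have e : m * (n + 1) = m * n + m := by ring
        omega
      omega
    · rw [if_neg (by omega), if_neg (by omega)]
      have : ((m - (i + 1)) * n + m - 1) / m ≤ ((m - i) * n + m - 1) / m := by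
        apply Nat.div_le_div_right
        have : (m - (i + 1)) * n ≤ (m - i) * n := Nat.mul_le_mul_right _ (by omega)
        omega
      omega
  · rw [if_pos h1]
    rcases Nat.eq_zero_or_pos i with h0 | h0
    · subst h0
      rw [if_pos rfl]
      omega
    · rw [if_neg (by omega), if_neg (by omega)]
      have : 1 ≤ ((m - i) * n + m - 1) / m := by
        rw [Nat.le_div_iff_mul_le (by omega)]
        have : 1 * 1 ≤ (m - i) * n := Nat.mul_le_mul (by omega) hn
        omega
      omega

theorem bs_isBm (m n : ℕ) (hm : 1 ≤ m) (hn : 1 ≤ n) :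
    ∃ w, IsBm m n w ∧ w.map (fun k : ℕ => (k : ℤ)) = bs m n := by
  obtain ⟨w, h1, h2⟩ := isBm_path m n hm (fun i => (n : ℤ) - ys m n i) (by simp [ys]) (by
    have : ys m n m = 0 := by
      unfold ys
      rw [if_neg (by omega), if_pos le_rfl]
    simp only [this, sub_zero]) (by
    intro i h0 hi
    unfold ys
    rw [if_neg (by omega), if_neg (by omega)]
    obtain ⟨j, rfl⟩ : ∃ j, m = i + j := ⟨m - i, by omega⟩
    rw [Nat.add_sub_cancel_left]
    have h1 := Nat.div_mul_le_self (j * n + (i + j) - 1) (i + j)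
    have h2 := Nat.lt_div_mul_add (a := j * n + (i + j) - 1) (b := i + j) (by omega)
    set c := (j * n + (i + j) - 1) / (i + j) with hc
    have h1'' : c * (i + j) + 1 ≤ j * n + (i + j) := by omega
    have h2'' : j * n + (i + j) ≤ c * (i + j) + (i + j) := by omega
    have h1' : (c : ℤ) * (i + j) + 1 ≤ j * n + (i + j) := by exact_mod_cast h1''
    have h2' : (j : ℤ) * n + (i + j) ≤ c * (i + j) + (i + j) := by exact_mod_cast h2''
    push_cast
    constructor
    · nlinarith
    · nlinarith) (by
    intro i hi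
    have := ys_mono m n hn i hi
    omega)
  refine ⟨w, h1, ?_⟩
  rw [h2]
  unfold pathWord bs
  apply List.map_congr_left
  intro j _
  simp only
  ring

end Pool.Agent.EP
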