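import Pool.Agent.Helper32.EP.Assembly
import Pool.Agent.Helper32.EP.Field
import Pool.Agent.Helper32.EP.GcdLe
import Pool.Agent.Helper32.EP.Bridge
import Pool.Agent.Helper32.EP.PathBridge
import Pool.Agent.Helper28.EP.PartA
import Pool.Agent.Helper95.SH.IB

/-!
# Full answer to Q1 of MP_36e183_co
-/

set_option autoImplicit false

namespace Pool.Agent.EP

open MvPolynomial

theorem geom_ne_zero (d : ℕ) (hd : 1 ≤ d) :
    ∑ i ∈ Finset.range d, ((qv * (1 + rv))⁻¹) ^ i ≠ 0 := by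
  intro h
  have h1 := geom_sum_mul ((qv * (1 + rv))⁻¹) d
  rw [h, zero_mul, inv_pow, eq_comm, sub_eq_zero, inv_eq_one] at h1
  exact qt_pow_ne_one (by omega) h1

theorem main : MainStatement := by
  obtain ⟨h1, h2, h3⟩ := partA qv (1 + rv) M_ne_zero qt_ne_zero geom_ne_zero
  have hW : WFacts (Fil KQ) (Dt qv (1 + rv)) (qv * (1 + rv)) :=
    wFacts (Fil KQ) (Dt qv (1 + rv)) (qv * (1 + rv)) (filOp_Dt qv (1 + rv))
  refine main_of h1 ?_ ?_ ?_ ?_ ?_
  · intro m n hm hn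
    obtain ⟨w, hw1, hw2⟩ := bw_isB m n hm
    rw [h2 m n hm hn w hw1, hw2, Fw_eq_F hW]
  · intro m n hm hn
    obtain ⟨w, hw1, hw2⟩ := bs_isBm m n hm hn
    rw [h3 m n hm hn w hw1, hw2, Fw_eq_F hW]
  · intro m n hm hn
    obtain ⟨k, rfl⟩ : ∃ k, m = k + 2 := ⟨m - 2, by omega⟩
    exact Pool.Agent.Helper95.SH.F_lines_E qv rv k n hn
  · intro m n hm hn
    obtain ⟨k, rfl⟩ : ∃ k, m = k + 2 := ⟨m - 2, by omega⟩
    exact Pool.Agent.Helper95.SH.F_lines_H qv rv k n hn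
  · intro m n hm hn
    exact gcd_le_alpha hm hn

end Pool.Agent.EP
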