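import Pool.Agent.Helper32.EP.Defs

/-!
# Part C: moving the line (MP_36e183_co)
-/

set_option autoImplicit false

namespace Pool.Agent.EP

open MvPolynomial

variable {K : Type*} [Field K]

/-! ### NPos and EPos are closed under sums and products -/

theorem NPos.zero (q r : K) : NPos q r 0 := ⟨0, by simp⟩

theorem NPos.one (q r : K) : NPos q r 1 := ⟨1, by simp⟩

theorem NPos.add {q r a b : K} (ha : NPos q r a) (hb : NPos q r b) : NPos q r (a + b) := by
  obtain ⟨P, rfl⟩ := ha
  obtain ⟨R, rfl⟩ := hb
  exact ⟨P + R, by simp⟩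

theorem NPos.mul {q r a b : K} (ha : NPos q r a) (hb : NPos q r b) : NPos q r (a * b) := by
  obtain ⟨P, rfl⟩ := ha
  obtain ⟨R, rfl⟩ := hb
  exact ⟨P * R, by simp⟩

theorem NPos.q (q r : K) : NPos q r q := ⟨X 0, by simp⟩

theorem NPos.r (q r : K) : NPos q r r := ⟨X 1, by simp⟩

theorem NPos.pow {q r a : K} (ha : NPos q r a) (n : ℕ) : NPos q r (a ^ n) := by
  induction n with
  | zero => simpa using NPos.one q r
  | succ n ih => rw [pow_succ]; exact ih.mul ha

theorem NPos.sum {ι : Type*} {q r : K} (s : Finset ι) (f : ι → K)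
    (hf : ∀ i ∈ s, NPos q r (f i)) : NPos q r (∑ i ∈ s, f i) := by
  classical
  induction s using Finset.induction_on with
  | empty => simpa using NPos.zero q r
  | insert a s ha ih =>
    rw [Finset.sum_insert ha]
    exact (hf a (by simp)).add (ih fun i hi => hf i (by simp [hi]))

theorem EPos.zero (q r : K) : EPos q r 0 := fun μ => by simpa using NPos.zero q r

theorem EPos.add {q r : K} {f g : Lam K} (hf : EPos q r f) (hg : EPos q r g) :
    EPos q r (f + g) := fun μ => by rw [coeff_add]; exact (hf μ).add (hg μ)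

theorem EPos.C_mul {q r a : K} {f : Lam K} (ha : NPos q r a) (hf : EPos q r f) :
    EPos q r (C a * f) := fun μ => by rw [coeff_C_mul]; exact ha.mul (hf μ)

theorem EPos.mul {q r : K} {f g : Lam K} (hf : EPos q r f) (hg : EPos q r g) :
    EPos q r (f * g) := by
  classical
  intro μ
  rw [coeff_mul]
  exact NPos.sum _ _ fun x _ => (hf _).mul (hg _)

theorem EPos.one (q r : K) : EPos q r 1 := by
  classical
  intro μ
  rw [coeff_one]
  split
  · exact NPos.one q r
  · exact NPos.zero q r

theorem EPos.e (q r : K) (n : ℤ) : EPos q r (e K n) := by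
  classical
  match n with
  | Int.ofNat 0 => exact EPos.one q r
  | Int.ofNat (n + 1) =>
    intro μ
    show NPos q r (coeff μ (X n))
    rw [coeff_X]
    split
    · exact NPos.one q r
    · exact NPos.zero q r
  | Int.negSucc _ => exact EPos.zero q r

theorem EPos.sum {ι : Type*} {q r : K} (s : Finset ι) (f : ι → Lam K)
    (hf : ∀ i ∈ s, EPos q r (f i)) : EPos q r (∑ i ∈ s, f i) := by
  classical
  induction s using Finset.induction_on with
  | empty => simpa using EPos.zero q r
  | insert a s ha ih =>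
    rw [Finset.sum_insert ha]
    exact (hf a (by simp)).add (ih fun i hi => hf i (by simp [hi]))

/-! ### Paths -/

/-- The list `(H 0 - H 1, H 1 - H 2, ..., H (l-1) - H l)` of the numbers of vertical steps of the
path with heights `H`. -/
def steps (l : ℕ) (H : ℕ → ℤ) : List ℤ := (List.range l).map fun j => H j - H (j + 1)

/-- Heights of the highest path weakly below the diagonal from `(0,n)` to `(m,0)`. -/
def Hw (m n : ℕ) (j : ℕ) : ℤ := (n : ℤ) * ((m : ℤ) - j) / m

/-- Heights of the highest path from `(0,n)` to `(m,0)` whose points in the columns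
`1, ..., m-1` are strictly below the diagonal. -/
def Hs (m n : ℕ) (j : ℕ) : ℤ :=
  if j = 0 then n else if m ≤ j then 0 else -(-((n : ℤ) * ((m : ℤ) - j)) / m) - 1

/-- The crossing property (result of part B): `H` is the height function of a path with `l`
columns below the line `y = y0 - p x` which passes through exactly one lattice point `(i, H i)`
in the columns `1, ..., l-1`; `H'` is obtained by lowering `H i` by one. -/
def Crossing (q r : K) (F : List ℤ → Lam K) : Prop :=
  ∀ (l : ℕ) (H : ℕ → ℤ) (y0 p : ℚ) (i : ℕ), 1 ≤ i → i < l →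
    (y0 - p * i - H i = 0) →
    (∀ j : ℕ, 1 ≤ j → j < l → j ≠ i → 0 < y0 - p * j - H j ∧ y0 - p * j - H j < 1) →
    (y0 - H 0 < 1) → (y0 - p * l - H l < 1) →
    (∀ k : ℕ, 1 ≤ k → k < l → ∀ z : ℤ, p * k ≠ z) →
    EPos q r (F (steps l H) - C q * F (steps l (fun j => if j = i then H j - 1 else H j)))

/-- Heights of the highest path below the line `y = n + δ - s x`. -/
noncomputable def Hc (m n : ℕ) (δ s : ℚ) (j : ℕ) : ℤ :=
  if j = 0 then n else if m ≤ j then 0 else ⌊(n : ℚ) + δ - s * j⌋

theorem steps_congr {l : ℕ} {H H' : ℕ → ℤ} (h : ∀ j ≤ l, H j = H' j) :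
    steps l H = steps l H' := by
  unfold steps
  apply List.map_congr_left
  intro j hj
  rw [List.mem_range] at hj
  rw [h j (by omega), h (j + 1) (by omega)]

theorem Hc_le {m n : ℕ} {δ s s' : ℚ} (hs : s ≤ s') (j : ℕ) :
    Hc m n δ s' j ≤ Hc m n δ s j := by
  unfold Hc
  split
  · exact le_rfl
  · split
    · exact le_rfl
    · apply Int.floor_le_floor
      have : s * (j : ℚ) ≤ s' * j := mul_le_mul_of_nonneg_right hs (by positivity)
      linarith

theorem Hc_mid {m n : ℕ} {δ s : ℚ} {j : ℕ} (h1 : 1 ≤ j) (h2 : j < m) :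
    Hc m n δ s j = ⌊(n : ℚ) + δ - s * j⌋ := by
  unfold Hc
  rw [if_neg (by omega), if_neg (by omega)]

theorem chain {q r : K} {F : List ℤ → Lam K} (hX : Crossing q r F) (hq : NPos q r q)
    {m n : ℕ} (_hm : 2 ≤ m) {δ : ℚ} (hδ1 : δ < 1)
    (hδ : ∀ k : ℤ, k ≠ 0 → |k| < m → ∀ z : ℤ, δ * k ≠ z) (s1 : ℚ) :
    ∀ (N : ℕ) (s2 : ℚ), (n : ℚ) / m ≤ s2 → s2 ≤ s1 →
      (∑ j ∈ Finset.Ico 1 m, (Hc m n δ s2 j - Hc m n δ s1 j) = N) →
      EPos q r (F (steps m (Hc m n δ s2)) - C (q ^ N) * F (steps m (Hc m n δ s1))) := by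
  intro N
  induction N with
  | zero =>
    intro s2 _ hs hN
    have hnn : ∀ j ∈ Finset.Ico 1 m, 0 ≤ Hc m n δ s2 j - Hc m n δ s1 j := fun j _ => by
      have := Hc_le (m := m) (n := n) (δ := δ) hs j; omega
    have h0 := (Finset.sum_eq_zero_iff_of_nonneg hnn).1 (by simpa using hN)
    have : steps m (Hc m n δ s2) = steps m (Hc m n δ s1) := by
      apply steps_congr
      intro j hj
      rcases Nat.eq_zero_or_pos j with h | h
      · subst h; simp [Hc]
      · rcases Nat.lt_or_ge j m with h' | h'
        · have := h0 j (by simp; omega); omega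
        · simp [Hc, h', show j ≠ 0 by omega]
    rw [this]
    simpa using EPos.zero q r
  | succ N ih =>
    intro s2 hs2 hs hN
    -- columns in which the two paths differ
    set S := (Finset.Ico 1 m).filter (fun j => Hc m n δ s1 j < Hc m n δ s2 j) with hS
    have hSne : S.Nonempty := by
      by_contra hne
      rw [Finset.not_nonempty_iff_eq_empty] at hne
      have hz : ∑ j ∈ Finset.Ico 1 m, (Hc m n δ s2 j - Hc m n δ s1 j) = 0 := by
        apply Finset.sum_eq_zero
        intro j hj
        have h1 := Hc_le (m := m) (n := n) (δ := δ) hs j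
        have h2 : ¬ Hc m n δ s1 j < Hc m n δ s2 j := by
          intro hlt
          have : j ∈ S := by rw [hS, Finset.mem_filter]; exact ⟨hj, hlt⟩
          rw [hne] at this
          simp at this
        omega
      rw [hz] at hN
      push_cast at hN
      omega
    obtain ⟨i, hiS, himin⟩ := Finset.exists_min_image S
      (fun j : ℕ => ((n : ℚ) + δ - Hc m n δ s2 j) / j) hSne
    rw [hS, Finset.mem_filter, Finset.mem_Ico] at hiS
    obtain ⟨⟨hi1, him⟩, hilt⟩ := hiS
    have hi0 : (0 : ℚ) < i := by exact_mod_cast hi1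
    set ss : ℚ := ((n : ℚ) + δ - Hc m n δ s2 i) / i with hss
    have hssi : ss * i = (n : ℚ) + δ - Hc m n δ s2 i := by
      rw [hss]; field_simp
    -- s2 ≤ ss < s1
    have hs2ss : s2 ≤ ss := by
      rw [hss, le_div_iff₀ hi0]
      have := Int.floor_le ((n : ℚ) + δ - s2 * i)
      rw [← Hc_mid hi1 him] at this
      linarith
    have hsss1 : ss < s1 := by
      rw [hss, div_lt_iff₀ hi0]
      have h1 : Hc m n δ s1 i + 1 ≤ Hc m n δ s2 i := by omega
      have h2 := Int.lt_floor_add_one ((n : ℚ) + δ - s1 * i)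
      rw [← Hc_mid hi1 him] at h2
      have h3 : ((Hc m n δ s1 i : ℚ)) + 1 ≤ Hc m n δ s2 i := by exact_mod_cast h1
      linarith
    -- heights for slope ss are those for slope s2
    have hHss : ∀ j, 1 ≤ j → j < m → Hc m n δ ss j = Hc m n δ s2 j := by
      intro j hj1 hjm
      have hj0 : (0 : ℚ) < j := by exact_mod_cast hj1
      have h1 := Hc_le (m := m) (n := n) (δ := δ) hs2ss j
      by_contra hne
      have h2 : Hc m n δ ss j < Hc m n δ s2 j := lt_of_le_of_ne h1 hne
      have h3 := Hc_le (m := m) (n := n) (δ := δ) hsss1.le j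
      have hjS : j ∈ S := by
        rw [hS, Finset.mem_filter, Finset.mem_Ico]
        exact ⟨⟨hj1, hjm⟩, by omega⟩
      have h4 := himin j hjS
      rw [le_div_iff₀ hj0] at h4
      have h5 : Hc m n δ s2 j ≤ Hc m n δ ss j := by
        rw [Hc_mid (s := ss) hj1 hjm, Int.le_floor]
        linarith
      omega
    -- no other lattice point on the line
    have huniq : ∀ j : ℕ, 1 ≤ j → j < m → j ≠ i → ∀ z : ℤ, (n : ℚ) + δ - ss * j ≠ z := by
      intro j hj1 hjm hji z hz
      have hk : ((i : ℤ) - j) ≠ 0 := by omega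
      have hk2 : |((i : ℤ) - j)| < m := by
        rw [abs_lt]; omega
      apply hδ _ hk hk2 (z * i - n * i + (n - Hc m n δ s2 i) * j)
      push_cast
      have h1 : ss * i * j = ((n : ℚ) + δ - Hc m n δ s2 i) * j := by rw [hssi]
      have h2 : ((n : ℚ) + δ - ss * j) * i = z * i := by rw [hz]
      linarith
    have hge : ∀ j : ℕ, 1 ≤ j → j < m → (Hc m n δ s2 j : ℚ) ≤ (n : ℚ) + δ - ss * j := by
      intro j hj1 hjm
      rw [← hHss j hj1 hjm, Hc_mid hj1 hjm]
      exact Int.floor_le _
    have hlt1 : ∀ j : ℕ, 1 ≤ j → j < m → (n : ℚ) + δ - ss * j < Hc m n δ s2 j + 1 := by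
      intro j hj1 hjm
      rw [← hHss j hj1 hjm, Hc_mid hj1 hjm]
      exact Int.lt_floor_add_one _
    set H' : ℕ → ℤ := fun j => if j = i then Hc m n δ s2 j - 1 else Hc m n δ s2 j with hH'
    -- next slope
    have hIne : (Finset.Ico 1 m).Nonempty := ⟨i, by simp; omega⟩
    obtain ⟨i', hi', hi'min⟩ := Finset.exists_min_image (Finset.Ico 1 m)
      (fun j : ℕ => ((n : ℚ) + δ - H' j) / j) hIne
    set s3 : ℚ := min s1 (((n : ℚ) + δ - H' i') / i') with hs3
    have hsl : ∀ j : ℕ, 1 ≤ j → j < m → ss < ((n : ℚ) + δ - H' j) / j := by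
      intro j hj1 hjm
      have hj0 : (0 : ℚ) < j := by exact_mod_cast hj1
      rw [lt_div_iff₀ hj0]
      by_cases hji : j = i
      · subst hji
        simp only [hH', if_true]
        push_cast
        linarith
      · simp only [hH', if_neg hji]
        have h1 := hge j hj1 hjm
        have h2 : (n : ℚ) + δ - ss * j ≠ Hc m n δ s2 j := huniq j hj1 hjm hji _
        have h3 : (Hc m n δ s2 j : ℚ) < (n : ℚ) + δ - ss * j := lt_of_le_of_ne h1 (Ne.symm h2)
        linarith
    rw [Finset.mem_Ico] at hi'
    have hs3gt : ss < s3 := lt_min hsss1 (hsl i' hi'.1 hi'.2)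
    have hs3le : s3 ≤ s1 := min_le_left _ _
    have hs3H : ∀ j, 1 ≤ j → j < m → Hc m n δ s3 j = H' j := by
      intro j hj1 hjm
      have hj0 : (0 : ℚ) < j := by exact_mod_cast hj1
      apply le_antisymm
      · by_cases hji : j = i
        · subst hji
          have : Hc m n δ s3 j < Hc m n δ s2 j := by
            rw [Hc_mid hj1 hjm, Int.floor_lt]
            have : ss * j < s3 * j := by
              exact mul_lt_mul_of_pos_right hs3gt hj0
            linarith
          simp only [hH', if_true]
          omega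
        · have := Hc_le (m := m) (n := n) (δ := δ) hs3gt.le j
          simp only [hH', if_neg hji]
          rw [← hHss j hj1 hjm]
          exact this
      · rw [Hc_mid hj1 hjm, Int.le_floor]
        have h1 : s3 ≤ ((n : ℚ) + δ - H' j) / j :=
          le_trans (min_le_right _ _) (hi'min j (by simp; omega))
        rw [le_div_iff₀ hj0] at h1
        linarith
    have hsteps : steps m (Hc m n δ s3) = steps m H' := by
      apply steps_congr
      intro j hj
      rcases Nat.eq_zero_or_pos j with h | h
      · subst h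
        simp only [hH']
        rw [if_neg (by omega)]
        simp [Hc]
      · rcases Nat.lt_or_ge j m with h' | h'
        · exact hs3H j h h'
        · simp only [hH']
          rw [if_neg (by omega)]
          simp [Hc, h', show j ≠ 0 by omega]
    have hcount : ∑ j ∈ Finset.Ico 1 m, (Hc m n δ s3 j - Hc m n δ s1 j) = N := by
      have h1 : ∑ j ∈ Finset.Ico 1 m, (Hc m n δ s3 j - Hc m n δ s1 j) =
          ∑ j ∈ Finset.Ico 1 m, ((Hc m n δ s2 j - Hc m n δ s1 j) - (if j = i then 1 else 0)) := by
        apply Finset.sum_congr rfl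
        intro j hj
        rw [Finset.mem_Ico] at hj
        rw [hs3H j hj.1 hj.2]
        simp only [hH']
        split <;> ring
      rw [h1, Finset.sum_sub_distrib, hN, Finset.sum_ite_eq' (Finset.Ico 1 m) i]
      rw [if_pos (by simp; omega)]
      push_cast
      ring
    have hIH := ih s3 (by linarith) hs3le hcount
    rw [hsteps] at hIH
    -- the crossing
    have hcr := hX m (Hc m n δ s2) ((n : ℚ) + δ) ss i hi1 him
      (by rw [hssi]; ring)
      (by
        intro j hj1 hjm hji
        have h1 := hge j hj1 hjm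
        have h2 : (n : ℚ) + δ - ss * j ≠ Hc m n δ s2 j := huniq j hj1 hjm hji _
        have h3 : (Hc m n δ s2 j : ℚ) < (n : ℚ) + δ - ss * j := lt_of_le_of_ne h1 (Ne.symm h2)
        have h4 := hlt1 j hj1 hjm
        constructor <;> linarith)
      (by
        have : (Hc m n δ s2 0 : ℚ) = n := by simp [Hc]
        rw [this]; linarith)
      (by
        have h0 : (Hc m n δ s2 m : ℚ) = 0 := by simp [Hc, show m ≠ 0 by omega]
        rw [h0]
        have hm0 : (0 : ℚ) < m := by exact_mod_cast (by omega : 0 < m)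
        have h1 : (n : ℚ) / m ≤ ss := le_trans hs2 hs2ss
        rw [div_le_iff₀ hm0] at h1
        linarith)
      (by
        intro k hk1 hkm z hz
        have hk : (k : ℤ) ≠ 0 := by omega
        have hk2 : |(k : ℤ)| < m := by rw [abs_lt]; omega
        apply hδ _ hk hk2 (z * i - (n - Hc m n δ s2 i) * k)
        push_cast
        have h1 : ss * i * k = ((n : ℚ) + δ - Hc m n δ s2 i) * k := by rw [hssi]
        have h2 : ss * k * i = z * i := by rw [hz]
        linarith)
    have hfin : F (steps m (Hc m n δ s2)) - C (q ^ (N + 1)) * F (steps m (Hc m n δ s1)) =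
        (F (steps m (Hc m n δ s2)) - C q * F (steps m H')) +
          C q * (F (steps m H') - C (q ^ N) * F (steps m (Hc m n δ s1))) := by
      rw [pow_succ, C_mul]
      ring
    rw [hfin]
    exact EPos.add hcr (EPos.C_mul hq hIH)

end Pool.Agent.EP
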